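import Pool.Agent.H21A.Swap
import Pool.Agent.TFB.Att

/-! helper74's LEMMA AR: absorption of run vertices. -/

namespace Pool.Agent.H21A

open List Pool.Agent.TF82 Pool.Agent.TFC Pool.Agent.TFB Pool.Agent.H62P

universe u

set_option linter.unusedSectionVars false
set_option linter.unusedVariables false

variable {V : Type u} [DecidableEq V]

/-- the uncovered vertices `X` each have their own cycle `D x` of the cover with a neighbour of `x`,
no edges between different `D x`, no other vertex of `X` adjacent to `D x`: then `X` is absorbed -/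
theorem absorb_runs {G : SimpleGraph V} [DecidableRel G.Adj] {U W : Finset V}
    (D : V → List V) : ∀ (n : ℕ) (X : Finset V) (L : List (List V)), X.card = n →
    X ⊆ U \ W →
    (∀ v ∈ X, ∀ I : Finset V, I ⊆ U \ W → G.IsIndepSet (I : Set V) → v ∈ I →
      I.card + 1 + W.card ≤ dU G U v) →
    Fam G L → (∀ x ∈ L.flatten, x ∈ U) →
    (∀ x ∈ X, x ∉ L.flatten) → (∀ x ∈ U \ W, x ∈ L.flatten ∨ x ∈ X) →
    (∀ x ∈ X, D x ∈ L) → (∀ x ∈ X, ∃ y ∈ D x, G.Adj x y) →
    (∀ x ∈ X, ∀ x' ∈ X, x ≠ x' →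
      (∀ a ∈ D x, ∀ b ∈ D x', ¬ G.Adj a b) ∧ (∀ a ∈ D x, ¬ G.Adj x' a)) →
    CovW G U W L.length := by
  intro n
  induction n using Nat.strong_induction_on with
  | _ n ih =>
  intro X L hn hXU hC hL hLU hXL hcov hDL hDa hDD
  rcases X.eq_empty_or_nonempty with rfl | ⟨v, hv⟩
  · exact ⟨L, le_rfl, hL, hLU, fun x hx => (hcov x hx).resolve_right (by simp)⟩
  by_contra hcon
  have hvU : v ∈ U \ W := hXU hv
  -- a better family
  have step : ∀ (q : List V) (L2 : List (List V)), v ∈ q → (∀ x ∈ q, x ∈ X) → Fam G L2 →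
      L2.length ≤ L.length → (∀ x, x ∈ L2.flatten ↔ x ∈ L.flatten ∨ x ∈ q) →
      (∀ x ∈ X, x ∉ q → D x ∈ L2) → False := by
    intro q L2 hvq hqX hL2 hlen hm hD2
    apply hcon
    have hsub : X.filter (fun x => x ∉ q) ⊆ X := Finset.filter_subset _ _
    have hlt : (X.filter (fun x => x ∉ q)).card < n := by
      rw [← hn]
      refine Finset.card_lt_card ((Finset.ssubset_iff_of_subset hsub).2 ⟨v, hv, ?_⟩)
      simp [hvq]
    refine (ih _ hlt (X.filter (fun x => x ∉ q)) L2 rfl (hsub.trans hXU)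
      (fun w hw => hC w (hsub hw)) hL2 ?_ ?_ ?_ ?_
      (fun x hx => hDa x (hsub hx)) (fun x hx x' hx' h => hDD x (hsub hx) x' (hsub hx') h)).mono
      hlen
    · intro x hx
      rcases (hm x).1 hx with h | h
      · exact hLU x h
      · exact (Finset.mem_sdiff.1 (hXU (hqX x h))).1
    · intro x hx h
      rw [Finset.mem_filter] at hx
      rcases (hm x).1 h with h | h
      · exact hXL x hx.1 h
      · exact hx.2 h
    · intro x hx
      rw [hm, Finset.mem_filter]
      rcases hcov x hx with h | h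
      · exact Or.inl (Or.inl h)
      · by_cases hq : x ∈ q
        · exact Or.inl (Or.inr hq)
        · exact Or.inr ⟨h, hq⟩
    · intro x hx
      rw [Finset.mem_filter] at hx
      exact hD2 x hx.1 hx.2
  -- neighbours on the own cycles
  have hDn : ∀ x ∈ X, x ≠ v → ∀ a ∈ D x, ¬ G.Adj v a := fun x hx hne a ha =>
    (hDD x hx v hv hne).2 a ha
  have ht : ∀ x, ∃ y, x ∈ X → y ∈ D x ∧ G.Adj x y := by
    intro x
    by_cases hx : x ∈ X
    · obtain ⟨y, h1, h2⟩ := hDa x hx
      exact ⟨y, fun _ => ⟨h1, h2⟩⟩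
    · exact ⟨x, fun h => absurd h hx⟩
  choose t ht using ht
  have htL : ∀ x ∈ X, t x ∈ L.flatten := fun x hx =>
    List.mem_flatten.2 ⟨D x, hDL x hx, (ht x hx).1⟩
  have hpD : ∀ x ∈ X, prv L (t x) ∈ D x := by
    intro x hx
    rw [prv_eq hL (hDL x hx) (ht x hx).1]
    exact List.prev_mem _ _ _
  -- a vertex on `D x` is on no other cycle
  have huniq : ∀ x ∈ X, ∀ a ∈ D x, ∀ d ∈ L, a ∈ d → d = D x := by
    intro x hx a ha d hd had
    by_contra hne
    have h2 := (List.nodup_flatten.1 hL.nod).2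
    have : Std.Symm (List.Disjoint : List V → List V → Prop) := ⟨fun _ _ h => h.symm⟩
    exact h2.forall hd (hDL x hx) hne had ha
  have hDne : ∀ x ∈ X, ∀ x' ∈ X, x ≠ x' → D x ≠ D x' := by
    intro x hx x' hx' hne h
    exact (hDD x hx x' hx' hne).2 (t x') (h ▸ (ht x' hx').1) (ht x' hx').2
  set N : Finset V := L.flatten.toFinset.filter (fun w => G.Adj v w) with hN
  have hNm : ∀ w, w ∈ N ↔ w ∈ L.flatten ∧ G.Adj v w := by
    intro w; rw [hN, Finset.mem_filter, List.mem_toFinset]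
  -- a neighbour of `v` is on no `D x`, `x ≠ v`
  have hND : ∀ w ∈ N, ∀ x ∈ X, x ≠ v → w ∉ D x := fun w hw x hx hne h =>
    hDn x hx hne w h ((hNm w).1 hw).2
  classical
  set Y : Finset V := (X.filter (fun x => Reach G X v x)).erase v with hY
  have hYm : ∀ x, x ∈ Y ↔ x ≠ v ∧ x ∈ X ∧ Reach G X v x := by
    intro x; rw [hY, Finset.mem_erase, Finset.mem_filter]
  have hYX : ∀ x ∈ Y, x ∈ X := fun x hx => ((hYm x).1 hx).2.1
  set P : Finset V := N.image (prv L) with hP
  set Q : Finset V := Y.image (fun x => prv L (t x)) with hQ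
  have hPm : ∀ p ∈ P, ∃ w ∈ N, prv L w = p := by
    intro p hp
    obtain ⟨w, hw, rfl⟩ := Finset.mem_image.1 hp
    exact ⟨w, hw, rfl⟩
  have hQm : ∀ p ∈ Q, ∃ x ∈ Y, prv L (t x) = p := by
    intro p hp
    obtain ⟨w, hw, rfl⟩ := Finset.mem_image.1 hp
    exact ⟨w, hw, rfl⟩
  have hPL : ∀ p ∈ P, p ∈ L.flatten := by
    intro p hp
    obtain ⟨w, hw, rfl⟩ := hPm p hp
    exact prv_mem hL ((hNm w).1 hw).1
  have hQL : ∀ p ∈ Q, p ∈ L.flatten := by
    intro p hp
    obtain ⟨x, hx, rfl⟩ := hQm p hp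
    exact prv_mem hL (htL x (hYX x hx))
  have hcP : P.card = N.card := by
    refine Finset.card_image_of_injOn ?_
    intro a ha b hb hab
    exact prv_inj hL ((hNm a).1 (Finset.mem_coe.1 ha)).1 ((hNm b).1 (Finset.mem_coe.1 hb)).1 hab
  have hcQ : Q.card = Y.card := by
    refine Finset.card_image_of_injOn ?_
    intro a ha b hb hab
    have ha' := hYX a (Finset.mem_coe.1 ha)
    have hb' := hYX b (Finset.mem_coe.1 hb)
    by_contra hne
    have h1 : t a = t b := prv_inj hL (htL a ha') (htL b hb') hab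
    exact hDne a ha' b hb' hne
      (huniq b hb' (t b) (ht b hb').1 (D a) (hDL a ha') (h1 ▸ (ht a ha').1))
  have hPQ : Disjoint P Q := by
    rw [Finset.disjoint_left]
    intro p hp hq
    obtain ⟨w, hw, rfl⟩ := hPm p hp
    obtain ⟨x, hx, h⟩ := hQm _ hq
    have hx' := hYX x hx
    have h1 : t x = w := prv_inj hL (htL x hx') ((hNm w).1 hw).1 h
    exact hND w hw x hx' ((hYm x).1 hx).1 (h1 ▸ (ht x hx').1)
  set J : Finset V := insert v ((P ∪ Q) \ W) with hJ
  have hJU : J ⊆ U \ W := by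
    intro x hx
    rcases Finset.mem_insert.1 hx with rfl | hx
    · exact hvU
    · rw [Finset.mem_sdiff, Finset.mem_union] at hx
      refine Finset.mem_sdiff.2 ⟨?_, hx.2⟩
      rcases hx.1 with h | h
      · exact hLU x (hPL x h)
      · exact hLU x (hQL x h)
  have hvJ : v ∉ (P ∪ Q) \ W := by
    intro h
    rw [Finset.mem_sdiff, Finset.mem_union] at h
    rcases h.1 with h | h
    · exact hXL v hv (hPL v h)
    · exact hXL v hv (hQL v h)
  -- no edges
  have eP : ∀ p ∈ P, ¬ G.Adj v p := by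
    intro p hp hadj
    obtain ⟨w, hw, rfl⟩ := hPm p hp
    obtain ⟨L2, g1, g2, g3, g4⟩ := ins_keep hL (hXL v hv) ((hNm w).1 hw).1 ((hNm w).1 hw).2 hadj
    refine step [v] L2 (by simp) (by simpa using hv) g1 g2 (by simpa using g3) ?_
    intro x hx hxv
    exact g4 _ (hDL x hx) (hND w hw x hx (by simpa using hxv))
  have eQ : ∀ p ∈ Q, ¬ G.Adj v p := by
    intro p hp
    obtain ⟨x, hx, rfl⟩ := hQm p hp
    exact hDn x (hYX x hx) ((hYm x).1 hx).1 _ (hpD x (hYX x hx))
  have ePP : ∀ p ∈ P, ∀ p' ∈ P, p ≠ p' → ¬ G.Adj p p' := by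
    intro p hp p' hp' hne hadj
    obtain ⟨w, hw, rfl⟩ := hPm p hp
    obtain ⟨w', hw', rfl⟩ := hPm p' hp'
    have hww : w ≠ w' := fun h => hne (by rw [h])
    obtain ⟨L2, g1, g2, g3, g4⟩ := cross_keep hL (X := [v]) (by simpa using hXL v hv) (by simp)
      ((hNm w).1 hw).1 ((hNm w').1 hw').1 hww
      (by simpa using ⟨((hNm w').1 hw').2.symm, ((hNm w).1 hw).2⟩) hadj
    refine step [v] L2 (by simp) (by simpa using hv) g1 g2 g3 ?_
    intro x hx hxv
    exact g4 _ (hDL x hx) (hND w hw x hx (by simpa using hxv))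
      (hND w' hw' x hx (by simpa using hxv))
  have ePQ : ∀ p ∈ P, ∀ p' ∈ Q, ¬ G.Adj p p' := by
    intro p hp p' hp' hadj
    obtain ⟨w, hw, rfl⟩ := hPm p hp
    obtain ⟨x, hx, rfl⟩ := hQm p' hp'
    obtain ⟨hxv, hxX, hre⟩ := (hYm x).1 hx
    have hww : w ≠ t x := fun h => hND w hw x hxX hxv (h ▸ (ht x hxX).1)
    obtain ⟨q, h1, h2, h3, h4, h5⟩ := Reach.path hre.symm hxX
    obtain ⟨L2, g1, g2, g3, g4⟩ := cross_keep hL (X := q)
      (fun y hy => hXL y (h5 y hy)) h1 ((hNm w).1 hw).1 (htL x hxX) hww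
      (chain_ends h2 h3 h4 (ht x hxX).2.symm ((hNm w).1 hw).2) hadj
    refine step q L2 (List.mem_of_getLast? h4) h5 g1 g2 g3 ?_
    intro y hy hyq
    have hyv : y ≠ v := by rintro rfl; exact hyq (List.mem_of_getLast? h4)
    have hyx : y ≠ x := by rintro rfl; exact hyq (List.mem_of_head? h3)
    refine g4 _ (hDL y hy) (hND w hw y hy hyv) ?_
    intro h
    exact hDne x hxX y hy hyx.symm (huniq y hy _ h _ (hDL x hxX) (ht x hxX).1)
  have eQQ : ∀ p ∈ Q, ∀ p' ∈ Q, p ≠ p' → ¬ G.Adj p p' := by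
    intro p hp p' hp' hne
    obtain ⟨x, hx, rfl⟩ := hQm p hp
    obtain ⟨x', hx', rfl⟩ := hQm p' hp'
    have hxx : x ≠ x' := fun h => hne (by rw [h])
    exact (hDD x (hYX x hx) x' (hYX x' hx') hxx).1 _ (hpD x (hYX x hx)) _ (hpD x' (hYX x' hx'))
  have hind : G.IsIndepSet ((J : Finset V) : Set V) := by
    intro a ha b hb hab
    rw [Finset.mem_coe, hJ, Finset.mem_insert, Finset.mem_sdiff, Finset.mem_union] at ha hb
    rcases ha with rfl | ⟨ha | ha, -⟩ <;> rcases hb with rfl | ⟨hb | hb, -⟩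
    · exact absurd rfl hab
    · exact eP b hb
    · exact eQ b hb
    · intro h; exact eP a ha h.symm
    · exact ePP a ha b hb hab
    · exact ePQ a ha b hb
    · intro h; exact eQ a ha h.symm
    · intro h; exact ePQ b hb a ha h.symm
    · exact eQQ a ha b hb hab
  have key := hC v hv J hJU hind (Finset.mem_insert_self _ _)
  rw [hJ, Finset.card_insert_of_notMem hvJ] at key
  have h1 : N.card + Y.card ≤ ((P ∪ Q) \ W).card + (W.filter (fun x => x ∈ L.flatten)).card := by
    rw [← hcP, ← hcQ, ← Finset.card_union_of_disjoint hPQ]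
    have : P ∪ Q ⊆ ((P ∪ Q) \ W) ∪ (W.filter (fun x => x ∈ L.flatten)) := by
      intro p hp
      by_cases hpW : p ∈ W
      · refine Finset.mem_union_right _ (Finset.mem_filter.2 ⟨hpW, ?_⟩)
        rcases Finset.mem_union.1 hp with h | h
        · exact hPL p h
        · exact hQL p h
      · exact Finset.mem_union_left _ (Finset.mem_sdiff.2 ⟨hp, hpW⟩)
    exact (Finset.card_le_card this).trans (Finset.card_union_le _ _)
  have h2 : dU G U v ≤ N.card + Y.card + (W.filter (fun x => x ∉ L.flatten)).card := by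
    unfold dU
    have : U.filter (fun w => G.Adj v w) ⊆ (N ∪ Y) ∪ (W.filter (fun x => x ∉ L.flatten)) := by
      intro w hw
      rw [Finset.mem_filter] at hw
      by_cases hwL : w ∈ L.flatten
      · exact Finset.mem_union_left _ (Finset.mem_union_left _ ((hNm w).2 ⟨hwL, hw.2⟩))
      · by_cases hwX : w ∈ X
        · refine Finset.mem_union_left _ (Finset.mem_union_right _ ((hYm w).2 ⟨?_, hwX, ?_⟩))
          · rintro rfl; exact G.loopless.irrefl _ hw.2
          · exact Relation.ReflTransGen.single ⟨hv, hwX, hw.2⟩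
        · refine Finset.mem_union_right _ (Finset.mem_filter.2 ⟨?_, hwL⟩)
          by_contra hwW
          exact (hcov w (Finset.mem_sdiff.2 ⟨hw.1, hwW⟩)).elim hwL hwX
    refine (Finset.card_le_card this).trans ((Finset.card_union_le _ _).trans ?_)
    exact Nat.add_le_add_right (Finset.card_union_le _ _) _
  have h3 := Finset.card_filter_add_card_filter_not (s := W) (fun x => x ∈ L.flatten)
  omega

end Pool.Agent.H21A
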