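import Pool.Agent.H21A.Swap
import Pool.Agent.TFB.Att

/-! helper74's LEMMA AR' (one absorption step, in class K). -/

namespace Pool.Agent.H21A

open List Pool.Agent.TF82 Pool.Agent.TFC Pool.Agent.TFB Pool.Agent.H62P

universe u

set_option linter.unusedSectionVars false
set_option linter.unusedVariables false

variable {V : Type u} [DecidableEq V]

/-- inserting a path between `prv L w` and `w` -/
theorem ins_path {G : SimpleGraph V} {L : List (List V)} (hL : Fam G L) {w : V} {X : List V}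
    (hXd : ∀ x ∈ X, x ∉ L.flatten) (hXn : X.Nodup) (hw : w ∈ L.flatten)
    (hX : (prv L w :: (X ++ [w])).IsChain G.Adj) :
    ∃ L2, Fam G L2 ∧ L2.length ≤ L.length ∧ ∀ x, x ∈ L2.flatten ↔ x ∈ L.flatten ∨ x ∈ X := by
  obtain ⟨P, L', hP, h3, hperm, hL', hlen⟩ := place1 hL hw
  have hnod : (P ++ L'.flatten).Nodup := hperm.nodup_iff.1 hL.nod
  have hPm : ∀ x ∈ P, x ∈ L.flatten := fun x hx => hperm.mem_iff.2 (by simp [hx])
  have hLm : ∀ x ∈ L'.flatten, x ∈ L.flatten := fun x hx =>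
    hperm.mem_iff.2 (List.mem_append_right _ hx)
  have hseg := hP.seg hL hPm
  have hcyc : CycL G (P ++ X) := by
    refine close_seg hseg hX ?_ ?_
    · rw [List.nodup_append]
      refine ⟨(List.nodup_append.1 hnod).1, hXn, ?_⟩
      rintro x hx y hy rfl
      exact hXd x hy (hPm x hx)
    · omega
  refine ⟨(P ++ X) :: L', ⟨?_, ?_⟩, ?_, ?_⟩
  · intro c hc
    rcases List.mem_cons.1 hc with rfl | hc
    · exact hcyc
    · exact hL' c hc
  · rw [List.flatten_cons, List.nodup_append]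
    refine ⟨hcyc.1, (List.nodup_append.1 hnod).2.1, ?_⟩
    rintro x hx y hy rfl
    rcases List.mem_append.1 hx with hx | hx
    · exact (List.nodup_append.1 hnod).2.2 x hx x hy rfl
    · exact hXd x hx (hLm x hy)
  · simp; omega
  · intro x
    rw [List.flatten_cons, List.mem_append, List.mem_append, hperm.mem_iff, List.mem_append]
    exact or_right_comm

theorem absorb_step0 {G : SimpleGraph V} [DecidableRel G.Adj] {U W X : Finset V}
    {L : List (List V)} {v : V} (hv : v ∈ X) (hXU : X ⊆ U \ W)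
    (hC : ∀ I : Finset V, I ⊆ U \ W → G.IsIndepSet (I : Set V) → v ∈ I →
      I.card + 1 + W.card ≤ dU G U v)
    (hL : Fam G L) (hLU : ∀ x ∈ L.flatten, x ∈ U) (hXL : ∀ x ∈ X, x ∉ L.flatten)
    (hcov : ∀ x ∈ U \ W, x ∈ L.flatten ∨ x ∈ X)
    {R : Finset V} (hR : R ⊆ X) (hre : ∀ x ∈ R, Reach G X v x) (t : V → V)
    (ht : ∀ x ∈ R, t x ∈ L.flatten ∧ G.Adj x (t x) ∧ ¬ G.Adj v (t x))
    (hinj : ∀ x ∈ R, ∀ x' ∈ R, t x = t x' → x = x')
    (hcard : (X.filter (fun x => G.Adj v x)).card ≤ R.card + 1) :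
    ∃ (q : List V) (L2 : List (List V)), q ≠ [] ∧ (∀ x ∈ q, x ∈ X) ∧ Fam G L2 ∧
      L2.length ≤ L.length ∧ ∀ x, x ∈ L2.flatten ↔ x ∈ L.flatten ∨ x ∈ q := by
  by_contra hcon
  have hvU : v ∈ U \ W := hXU hv
  set N : Finset V := L.flatten.toFinset.filter (fun w => G.Adj v w) with hN
  have hNm : ∀ w, w ∈ N ↔ w ∈ L.flatten ∧ G.Adj v w := by
    intro w; rw [hN, Finset.mem_filter, List.mem_toFinset]
  set P : Finset V := N.image (prv L) with hP
  set Q : Finset V := R.image (fun x => prv L (t x)) with hQ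
  have hPm : ∀ p ∈ P, ∃ w ∈ N, prv L w = p := by
    intro p hp
    obtain ⟨w, hw, rfl⟩ := Finset.mem_image.1 hp
    exact ⟨w, hw, rfl⟩
  have hQm : ∀ p ∈ Q, ∃ x ∈ R, prv L (t x) = p := by
    intro p hp
    obtain ⟨w, hw, rfl⟩ := Finset.mem_image.1 hp
    exact ⟨w, hw, rfl⟩
  have hPL : ∀ p ∈ P, p ∈ L.flatten := by
    intro p hp
    obtain ⟨w, hw, rfl⟩ := hPm p hp
    exact prv_mem hL ((hNm w).1 hw).1
  have hQL : ∀ p ∈ Q, p ∈ L.flatten := by
    intro p hp
    obtain ⟨x, hx, rfl⟩ := hQm p hp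
    exact prv_mem hL (ht x hx).1
  have hcP : P.card = N.card := by
    refine Finset.card_image_of_injOn ?_
    intro a ha b hb hab
    exact prv_inj hL ((hNm a).1 (Finset.mem_coe.1 ha)).1 ((hNm b).1 (Finset.mem_coe.1 hb)).1 hab
  have hcQ : Q.card = R.card := by
    refine Finset.card_image_of_injOn ?_
    intro a ha b hb hab
    have ha' := Finset.mem_coe.1 ha
    have hb' := Finset.mem_coe.1 hb
    exact hinj a ha' b hb' (prv_inj hL (ht a ha').1 (ht b hb').1 hab)
  have hPQ : Disjoint P Q := by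
    rw [Finset.disjoint_left]
    intro p hp hq
    obtain ⟨w, hw, rfl⟩ := hPm p hp
    obtain ⟨x, hx, h⟩ := hQm _ hq
    have h1 : t x = w := prv_inj hL (ht x hx).1 ((hNm w).1 hw).1 h
    exact (ht x hx).2.2 (h1 ▸ ((hNm w).1 hw).2)
  set J : Finset V := insert v ((P ∪ Q) \ W) with hJ
  have hJU : J ⊆ U \ W := by
    intro x hx
    rcases Finset.mem_insert.1 hx with rfl | hx
    · exact hvU
    · rw [Finset.mem_sdiff, Finset.mem_union] at hx
      refine Finset.mem_sdiff.2 ⟨?_, hx.2⟩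
      rcases hx.1 with h | h
      · exact hLU x (hPL x h)
      · exact hLU x (hQL x h)
  have hvJ : v ∉ (P ∪ Q) \ W := by
    intro h
    rw [Finset.mem_sdiff, Finset.mem_union] at h
    rcases h.1 with h | h
    · exact hXL v hv (hPL v h)
    · exact hXL v hv (hQL v h)
  -- no edges
  have eP : ∀ p ∈ P, ¬ G.Adj v p := by
    intro p hp hadj
    obtain ⟨w, hw, rfl⟩ := hPm p hp
    obtain ⟨L2, g1, g2, g3⟩ := ins_fam hL (hXL v hv) ((hNm w).1 hw).1 ((hNm w).1 hw).2 hadj
    exact hcon ⟨[v], L2, by simp, by simpa using hv, g1, g2, by simpa using g3⟩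
  have eQ : ∀ p ∈ Q, ¬ G.Adj v p := by
    intro p hp hadj
    obtain ⟨x, hx, rfl⟩ := hQm p hp
    obtain ⟨q, h1, h2, h3, h4, h5⟩ := Reach.path (hre x hx) hv
    obtain ⟨L2, g1, g2, g3⟩ := ins_path hL (X := q) (fun y hy => hXL y (h5 y hy)) h1 (ht x hx).1
      (chain_ends h2 h3 h4 hadj.symm (ht x hx).2.1)
    exact hcon ⟨q, L2, by rintro rfl; simp at h3, h5, g1, g2, g3⟩
  have ePP : ∀ p ∈ P, ∀ p' ∈ P, p ≠ p' → ¬ G.Adj p p' := by
    intro p hp p' hp' hne hadj
    obtain ⟨w, hw, rfl⟩ := hPm p hp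
    obtain ⟨w', hw', rfl⟩ := hPm p' hp'
    have hww : w ≠ w' := fun h => hne (by rw [h])
    obtain ⟨L2, g1, g2, g3⟩ := cross_path hL (X := [v]) (by simpa using hXL v hv) (by simp)
      ((hNm w).1 hw).1 ((hNm w').1 hw').1 hww
      (by simpa using ⟨((hNm w').1 hw').2.symm, ((hNm w).1 hw).2⟩) hadj
    exact hcon ⟨[v], L2, by simp, by simpa using hv, g1, g2, g3⟩
  have ePQ : ∀ p ∈ P, ∀ p' ∈ Q, ¬ G.Adj p p' := by
    intro p hp p' hp' hadj
    obtain ⟨w, hw, rfl⟩ := hPm p hp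
    obtain ⟨x, hx, rfl⟩ := hQm p' hp'
    have hww : w ≠ t x := fun h => (ht x hx).2.2 (h ▸ ((hNm w).1 hw).2)
    obtain ⟨q, h1, h2, h3, h4, h5⟩ := Reach.path (hre x hx).symm (hR hx)
    obtain ⟨L2, g1, g2, g3⟩ := cross_path hL (X := q)
      (fun y hy => hXL y (h5 y hy)) h1 ((hNm w).1 hw).1 (ht x hx).1 hww
      (chain_ends h2 h3 h4 (ht x hx).2.1.symm ((hNm w).1 hw).2) hadj
    exact hcon ⟨q, L2, by rintro rfl; simp at h3, h5, g1, g2, g3⟩
  have eQQ : ∀ p ∈ Q, ∀ p' ∈ Q, p ≠ p' → ¬ G.Adj p p' := by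
    intro p hp p' hp' hne hadj
    obtain ⟨x, hx, rfl⟩ := hQm p hp
    obtain ⟨x', hx', rfl⟩ := hQm p' hp'
    have hxx : t x ≠ t x' := fun h => hne (by rw [h])
    have hr : Reach G X x' x := (hre x' hx').symm.trans (hre x hx)
    obtain ⟨q, h1, h2, h3, h4, h5⟩ := Reach.path hr (hR hx')
    obtain ⟨L2, g1, g2, g3⟩ := cross_path hL (X := q)
      (fun y hy => hXL y (h5 y hy)) h1 (ht x hx).1 (ht x' hx').1 hxx
      (chain_ends h2 h3 h4 (ht x' hx').2.1.symm (ht x hx).2.1) hadj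
    exact hcon ⟨q, L2, by rintro rfl; simp at h3, h5, g1, g2, g3⟩
  have hind : G.IsIndepSet ((J : Finset V) : Set V) := by
    intro a ha b hb hab
    rw [Finset.mem_coe, hJ, Finset.mem_insert, Finset.mem_sdiff, Finset.mem_union] at ha hb
    rcases ha with rfl | ⟨ha | ha, -⟩ <;> rcases hb with rfl | ⟨hb | hb, -⟩
    · exact absurd rfl hab
    · exact eP b hb
    · exact eQ b hb
    · intro h; exact eP a ha h.symm
    · exact ePP a ha b hb hab
    · exact ePQ a ha b hb
    · intro h; exact eQ a ha h.symm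
    · intro h; exact ePQ b hb a ha h.symm
    · exact eQQ a ha b hb hab
  have key := hC J hJU hind (Finset.mem_insert_self _ _)
  rw [hJ, Finset.card_insert_of_notMem hvJ] at key
  have h1 : N.card + R.card ≤ ((P ∪ Q) \ W).card + (W.filter (fun x => x ∈ L.flatten)).card := by
    rw [← hcP, ← hcQ, ← Finset.card_union_of_disjoint hPQ]
    have : P ∪ Q ⊆ ((P ∪ Q) \ W) ∪ (W.filter (fun x => x ∈ L.flatten)) := by
      intro p hp
      by_cases hpW : p ∈ W
      · refine Finset.mem_union_right _ (Finset.mem_filter.2 ⟨hpW, ?_⟩)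
        rcases Finset.mem_union.1 hp with h | h
        · exact hPL p h
        · exact hQL p h
      · exact Finset.mem_union_left _ (Finset.mem_sdiff.2 ⟨hp, hpW⟩)
    exact (Finset.card_le_card this).trans (Finset.card_union_le _ _)
  have h2 : dU G U v ≤ N.card + (X.filter (fun x => G.Adj v x)).card +
      (W.filter (fun x => x ∉ L.flatten)).card := by
    unfold dU
    have : U.filter (fun w => G.Adj v w) ⊆ (N ∪ X.filter (fun x => G.Adj v x)) ∪
        (W.filter (fun x => x ∉ L.flatten)) := by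
      intro w hw
      rw [Finset.mem_filter] at hw
      by_cases hwL : w ∈ L.flatten
      · exact Finset.mem_union_left _ (Finset.mem_union_left _ ((hNm w).2 ⟨hwL, hw.2⟩))
      · by_cases hwX : w ∈ X
        · exact Finset.mem_union_left _ (Finset.mem_union_right _
            (Finset.mem_filter.2 ⟨hwX, hw.2⟩))
        · refine Finset.mem_union_right _ (Finset.mem_filter.2 ⟨?_, hwL⟩)
          by_contra hwW
          exact (hcov w (Finset.mem_sdiff.2 ⟨hw.1, hwW⟩)).elim hwL hwX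
    refine (Finset.card_le_card this).trans ((Finset.card_union_le _ _).trans ?_)
    exact Nat.add_le_add_right (Finset.card_union_le _ _) _
  have h3 := Finset.card_filter_add_card_filter_not (s := W) (fun x => x ∈ L.flatten)
  omega

/-- general form: `t x` may be adjacent to `v`, such `x` are only counted once -/
theorem absorb_step {G : SimpleGraph V} [DecidableRel G.Adj] {U W X : Finset V}
    {L : List (List V)} {v : V} (hv : v ∈ X) (hXU : X ⊆ U \ W)
    (hC : ∀ I : Finset V, I ⊆ U \ W → G.IsIndepSet (I : Set V) → v ∈ I →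
      I.card + 1 + W.card ≤ dU G U v)
    (hL : Fam G L) (hLU : ∀ x ∈ L.flatten, x ∈ U) (hXL : ∀ x ∈ X, x ∉ L.flatten)
    (hcov : ∀ x ∈ U \ W, x ∈ L.flatten ∨ x ∈ X)
    {R : Finset V} (hR : R ⊆ X) (hre : ∀ x ∈ R, Reach G X v x) (t : V → V)
    (ht : ∀ x ∈ R, t x ∈ L.flatten ∧ G.Adj x (t x))
    (hinj : ∀ x ∈ R, ∀ x' ∈ R, t x = t x' → x = x')
    (hcard : (X.filter (fun x => G.Adj v x)).card + (R.filter (fun x => G.Adj v (t x))).card ≤
      R.card + 1) :
    ∃ (q : List V) (L2 : List (List V)), q ≠ [] ∧ (∀ x ∈ q, x ∈ X) ∧ Fam G L2 ∧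
      L2.length ≤ L.length ∧ ∀ x, x ∈ L2.flatten ↔ x ∈ L.flatten ∨ x ∈ q := by
  have h := Finset.card_filter_add_card_filter_not (s := R) (fun x => G.Adj v (t x))
  refine absorb_step0 hv hXU hC hL hLU hXL hcov (R := R.filter (fun x => ¬ G.Adj v (t x)))
    ((Finset.filter_subset _ _).trans hR) (fun x hx => hre x (Finset.mem_filter.1 hx).1) t
    (fun x hx => ⟨(ht x (Finset.mem_filter.1 hx).1).1, (ht x (Finset.mem_filter.1 hx).1).2,
      (Finset.mem_filter.1 hx).2⟩)
    (fun x hx x' hx' => hinj x (Finset.mem_filter.1 hx).1 x' (Finset.mem_filter.1 hx').1) (by omega)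

/-- iteration: if every nonempty `X' ⊆ X` has a vertex `v` with the local condition (neighbours
`t x` for all `x ∈ X'`, injective), then `X` is absorbed without a new cycle -/
theorem absorb_all {G : SimpleGraph V} [DecidableRel G.Adj] {U W : Finset V} (t : V → V) :
    ∀ (n : ℕ) (X : Finset V) (L : List (List V)), X.card = n → X ⊆ U \ W →
    Fam G L → (∀ x ∈ L.flatten, x ∈ U) → (∀ x ∈ X, x ∉ L.flatten) →
    (∀ x ∈ U \ W, x ∈ L.flatten ∨ x ∈ X) →
    (∀ x ∈ X, t x ∈ L.flatten ∧ G.Adj x (t x)) →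
    (∀ x ∈ X, ∀ x' ∈ X, t x = t x' → x = x') →
    (∀ X' ⊆ X, X'.Nonempty → ∃ v ∈ X', (∀ I : Finset V, I ⊆ U \ W →
        G.IsIndepSet (I : Set V) → v ∈ I → I.card + 1 + W.card ≤ dU G U v) ∧
      ∀ a ∈ X', ∀ b ∈ X', a ≠ v → b ≠ v → Reach G X' v a → Reach G X' v b →
        G.Adj v (t a) → G.Adj v (t b) → a = b) →
    CovW G U W L.length := by
  intro n
  induction n using Nat.strong_induction_on with
  | _ n ih =>
  intro X L hn hXU hL hLU hXL hcov ht hinj hloc
  rcases X.eq_empty_or_nonempty with rfl | hne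
  · exact ⟨L, le_rfl, hL, hLU, fun x hx => (hcov x hx).resolve_right (by simp)⟩
  obtain ⟨v, hv, hC, hone'⟩ := hloc X subset_rfl hne
  classical
  have hone : ((X.filter (fun x => x ≠ v ∧ Reach G X v x)).filter
      (fun x => G.Adj v (t x))).card ≤ 1 := by
    rw [Finset.card_le_one]
    intro a ha b hb
    rw [Finset.mem_filter, Finset.mem_filter] at ha hb
    exact hone' a ha.1.1 b hb.1.1 ha.1.2.1 hb.1.2.1 ha.1.2.2 hb.1.2.2 ha.2 hb.2
  have hfil : X.filter (fun x => G.Adj v x) ⊆ X.filter (fun x => x ≠ v ∧ Reach G X v x) := by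
    intro x hx
    rw [Finset.mem_filter] at hx ⊢
    refine ⟨hx.1, ?_, Relation.ReflTransGen.single ⟨hv, hx.1, hx.2⟩⟩
    rintro rfl
    exact G.loopless.irrefl _ hx.2
  obtain ⟨q, L2, hq, hqX, g1, g2, g3⟩ := absorb_step hv hXU hC hL hLU hXL hcov
    (R := X.filter (fun x => x ≠ v ∧ Reach G X v x)) (Finset.filter_subset _ _)
    (fun x hx => (Finset.mem_filter.1 hx).2.2) t
    (fun x hx => ht x (Finset.mem_filter.1 hx).1)
    (fun x hx x' hx' => hinj x (Finset.mem_filter.1 hx).1 x' (Finset.mem_filter.1 hx').1)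
    (Nat.add_le_add (Finset.card_le_card hfil) hone)
  obtain ⟨a, q', rfl⟩ := List.exists_cons_of_ne_nil hq
  have hsub : X.filter (fun x => x ∉ a :: q') ⊆ X := Finset.filter_subset _ _
  have hlt : (X.filter (fun x => x ∉ a :: q')).card < n := by
    rw [← hn]
    refine Finset.card_lt_card ((Finset.ssubset_iff_of_subset hsub).2
      ⟨a, hqX a List.mem_cons_self, ?_⟩)
    simp
  refine (ih _ hlt (X.filter (fun x => x ∉ a :: q')) L2 rfl (hsub.trans hXU) g1 ?_ ?_ ?_
    (fun x hx => ⟨(g3 _).2 (Or.inl (ht x (hsub hx)).1), (ht x (hsub hx)).2⟩)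
    (fun x hx x' hx' => hinj x (hsub hx) x' (hsub hx'))
    (fun X' hX' h => hloc X' (hX'.trans hsub) h)).mono g2
  · intro x hx
    rcases (g3 x).1 hx with h | h
    · exact hLU x h
    · exact (Finset.mem_sdiff.1 (hXU (hqX x h))).1
  · intro x hx h
    rw [Finset.mem_filter] at hx
    rcases (g3 x).1 h with h | h
    · exact hXL x hx.1 h
    · exact hx.2 h
  · intro x hx
    rw [g3, Finset.mem_filter]
    rcases hcov x hx with h | h
    · exact Or.inl (Or.inl h)
    · by_cases hq : x ∈ a :: q'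
      · exact Or.inl (Or.inr hq)
      · exact Or.inr ⟨h, hq⟩

end Pool.Agent.H21A
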