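import Pool.Agent.H62P.Frame

/-! Local replacement of one or two cycles of a family; the other cycles stay. -/

namespace Pool.Agent.H21A

open List Pool.Agent.TF82 Pool.Agent.TFC Pool.Agent.TFB Pool.Agent.H62P

universe u

set_option linter.unusedSectionVars false
set_option linter.unusedVariables false

variable {V : Type u} [DecidableEq V]

/-- absorption of a path through two adjacent predecessors -/
theorem cross_path {G : SimpleGraph V} {L : List (List V)} (hL : Fam G L) {w1 w2 : V}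
    {X : List V} (hXd : ∀ x ∈ X, x ∉ L.flatten) (hXn : X.Nodup)
    (hw1 : w1 ∈ L.flatten) (hw2 : w2 ∈ L.flatten) (hne : w1 ≠ w2)
    (hX : (w2 :: (X ++ [w1])).IsChain G.Adj) (h : G.Adj (prv L w1) (prv L w2)) :
    ∃ L2, Fam G L2 ∧ L2.length ≤ L.length ∧ ∀ x, x ∈ L2.flatten ↔ x ∈ L.flatten ∨ x ∈ X := by
  obtain ⟨P, R, L', hperm, hL', hlen, h3, hPR⟩ := place2 hL hw1 hw2 hne
  have hnod : (P ++ (R ++ L'.flatten)).Nodup := hperm.nodup_iff.1 hL.nod
  have hPm : ∀ x ∈ P, x ∈ L.flatten := fun x hx => hperm.mem_iff.2 (by simp [hx])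
  have hRm : ∀ x ∈ R, x ∈ L.flatten := fun x hx => hperm.mem_iff.2 (by simp [hx])
  have hLm : ∀ x ∈ L'.flatten, x ∈ L.flatten := fun x hx =>
    hperm.mem_iff.2 (List.mem_append_right _ (List.mem_append_right _ hx))
  have key : ∀ a b, G.Adj a b → Seg G P w1 a → Seg G R w2 b →
      CycL G ((P ++ R.reverse) ++ X) := by
    intro a b hab hsP hsR
    have hsR' := hsR.rev
    have hs := link_seg hsP (X := []) (by simpa using hab) hsR'
    simp only [List.nil_append] at hs
    refine close_seg hs hX ?_ ?_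
    · rw [List.nodup_append]
      refine ⟨?_, hXn, ?_⟩
      · have h5 : (P ++ R).Nodup := by
          rw [← List.append_assoc] at hnod
          exact (List.nodup_append.1 hnod).1
        exact (((List.Perm.refl P).append (List.reverse_perm R)).nodup_iff).2 h5
      · rintro x hx y hy rfl
        rcases List.mem_append.1 hx with hx | hx
        · exact hXd x hy (hPm _ hx)
        · exact hXd x hy (hRm _ (List.mem_reverse.1 hx))
    · simp only [List.length_append, List.length_reverse]; omega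
  have hcyc : CycL G ((P ++ R.reverse) ++ X) := by
    rcases hPR with ⟨hP, hR⟩ | ⟨hP, hR⟩
    · exact key _ _ h.symm (hP.seg hL hPm) (hR.seg hL hRm)
    · exact key _ _ h (hP.seg hL hPm) (hR.seg hL hRm)
  refine ⟨((P ++ R.reverse) ++ X) :: L', ⟨?_, ?_⟩, ?_, ?_⟩
  · intro c hc
    rcases List.mem_cons.1 hc with rfl | hc
    · exact hcyc
    · exact hL' c hc
  · rw [List.flatten_cons, List.nodup_append]
    rw [← List.append_assoc] at hnod
    refine ⟨hcyc.1, (List.nodup_append.1 hnod).2.1, ?_⟩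
    rintro x hx y hy rfl
    rcases List.mem_append.1 hx with hx | hx
    · refine (List.nodup_append.1 hnod).2.2 x ?_ x hy rfl
      simpa using hx
    · exact hXd x hx (hLm _ hy)
  · simp; omega
  · intro x
    rw [List.flatten_cons, List.mem_append, List.mem_append, List.mem_append, hperm.mem_iff,
      List.mem_append, List.mem_append, List.mem_reverse]
    generalize (x ∈ L'.flatten) = e
    tauto

theorem Fam.left {G : SimpleGraph V} {L K R : List (List V)} (hL : Fam G L)
    (hp : L.Perm (K ++ R)) : Fam G K := by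
  refine ⟨fun c hc => hL.cyc c (hp.mem_iff.2 (List.mem_append_left _ hc)), ?_⟩
  have h1 := (List.Perm.flatten hp).nodup_iff.1 hL.nod
  rw [List.flatten_append] at h1
  exact (List.nodup_append.1 h1).1

theorem prv_left {G : SimpleGraph V} {L K R : List (List V)} (hL : Fam G L)
    (hp : L.Perm (K ++ R)) {x : V} (hx : x ∈ K.flatten) : prv K x = prv L x := by
  obtain ⟨c, hc, hxc⟩ := List.mem_flatten.1 hx
  rw [prv_eq (Fam.left hL hp) hc hxc, prv_eq hL (hp.mem_iff.2 (List.mem_append_left _ hc)) hxc]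

/-- the cycles through `w1` and `w2` -/
theorem isolate {G : SimpleGraph V} {L : List (List V)} (hL : Fam G L) {w1 w2 : V}
    (hw1 : w1 ∈ L.flatten) (hw2 : w2 ∈ L.flatten) :
    ∃ K R : List (List V), L.Perm (K ++ R) ∧ w1 ∈ K.flatten ∧ w2 ∈ K.flatten ∧
      ∀ d ∈ L, w1 ∉ d → w2 ∉ d → d ∈ R := by
  obtain ⟨c, hc, hwc⟩ := List.mem_flatten.1 hw1
  obtain ⟨d, hd, hwd⟩ := List.mem_flatten.1 hw2
  have h1 := List.perm_cons_erase hc
  by_cases hcd : c = d
  · subst hcd
    refine ⟨[c], L.erase c, by simpa using h1, by simpa using hwc, by simpa using hwd, ?_⟩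
    intro e he h3 h4
    refine (List.mem_erase_of_ne ?_).2 he
    rintro rfl
    exact h3 hwc
  · have hd' : d ∈ L.erase c := (List.mem_erase_of_ne (Ne.symm hcd)).2 hd
    have h2 := List.perm_cons_erase hd'
    refine ⟨[c, d], (L.erase c).erase d, ?_, by simp [hwc], by simp [hwd], ?_⟩
    · exact h1.trans (by simpa using h2.cons c)
    · intro e he h3 h4
      refine (List.mem_erase_of_ne ?_).2 ((List.mem_erase_of_ne ?_).2 he)
      · rintro rfl; exact h4 hwd
      · rintro rfl; exact h3 hwc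

/-- replacing a part of the family -/
theorem swap {G : SimpleGraph V} {L K R K2 : List (List V)} (hL : Fam G L)
    (hp : L.Perm (K ++ R)) {X : List V} (hXd : ∀ x ∈ X, x ∉ L.flatten) (h2 : Fam G K2)
    (hlen : K2.length ≤ K.length) (hm : ∀ x, x ∈ K2.flatten ↔ x ∈ K.flatten ∨ x ∈ X) :
    Fam G (K2 ++ R) ∧ (K2 ++ R).length ≤ L.length ∧
      (∀ x, x ∈ (K2 ++ R).flatten ↔ x ∈ L.flatten ∨ x ∈ X) ∧ ∀ d ∈ R, d ∈ K2 ++ R := by
  have hf := List.Perm.flatten hp
  have hnod := hf.nodup_iff.1 hL.nod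
  rw [List.flatten_append, List.nodup_append] at hnod
  refine ⟨⟨?_, ?_⟩, ?_, ?_, fun d hd => List.mem_append_right _ hd⟩
  · intro c hc
    rcases List.mem_append.1 hc with hc | hc
    · exact h2.cyc c hc
    · exact hL.cyc c (hp.mem_iff.2 (List.mem_append_right _ hc))
  · rw [List.flatten_append, List.nodup_append]
    refine ⟨h2.nod, hnod.2.1, ?_⟩
    rintro x hx y hy rfl
    rcases (hm x).1 hx with h | h
    · exact hnod.2.2 x h x hy rfl
    · refine hXd x h (hf.mem_iff.2 ?_)
      rw [List.flatten_append]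
      exact List.mem_append_right _ hy
  · rw [hp.length_eq, List.length_append, List.length_append]; omega
  · intro x
    rw [List.flatten_append, List.mem_append, hm, hf.mem_iff, List.flatten_append, List.mem_append]
    tauto

/-- inserting a vertex, the other cycles stay -/
theorem ins_keep {G : SimpleGraph V} {L : List (List V)} (hL : Fam G L) {z w : V}
    (hz : z ∉ L.flatten) (hw : w ∈ L.flatten) (h1 : G.Adj z w) (h2 : G.Adj z (prv L w)) :
    ∃ L2, Fam G L2 ∧ L2.length ≤ L.length ∧ (∀ x, x ∈ L2.flatten ↔ x ∈ L.flatten ∨ x = z) ∧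
      ∀ d ∈ L, w ∉ d → d ∈ L2 := by
  obtain ⟨K, R, hp, hk1, -, hR⟩ := isolate hL hw hw
  have hK := Fam.left hL hp
  have hzK : z ∉ K.flatten := fun h => hz ((List.Perm.flatten hp).mem_iff.2 (by
    rw [List.flatten_append]; exact List.mem_append_left _ h))
  rw [← prv_left hL hp hk1] at h2
  obtain ⟨K2, g1, g2, g3⟩ := ins_fam hK hzK hk1 h1 h2
  obtain ⟨e1, e2, e3, e4⟩ := swap hL hp (X := [z]) (by simpa using hz) g1 g2 (by simpa using g3)
  exact ⟨K2 ++ R, e1, e2, by simpa using e3, fun d hd hwd => e4 d (hR d hd hwd hwd)⟩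

/-- crossing, the other cycles stay -/
theorem cross_keep {G : SimpleGraph V} {L : List (List V)} (hL : Fam G L) {w1 w2 : V}
    {X : List V} (hXd : ∀ x ∈ X, x ∉ L.flatten) (hXn : X.Nodup)
    (hw1 : w1 ∈ L.flatten) (hw2 : w2 ∈ L.flatten) (hne : w1 ≠ w2)
    (hX : (w2 :: (X ++ [w1])).IsChain G.Adj) (h : G.Adj (prv L w1) (prv L w2)) :
    ∃ L2, Fam G L2 ∧ L2.length ≤ L.length ∧ (∀ x, x ∈ L2.flatten ↔ x ∈ L.flatten ∨ x ∈ X) ∧
      ∀ d ∈ L, w1 ∉ d → w2 ∉ d → d ∈ L2 := by
  obtain ⟨K, R, hp, hk1, hk2, hR⟩ := isolate hL hw1 hw2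
  have hK := Fam.left hL hp
  have hXK : ∀ x ∈ X, x ∉ K.flatten := fun x hx h => hXd x hx ((List.Perm.flatten hp).mem_iff.2 (by
    rw [List.flatten_append]; exact List.mem_append_left _ h))
  rw [← prv_left hL hp hk1, ← prv_left hL hp hk2] at h
  obtain ⟨K2, g1, g2, g3⟩ := cross_path hK hXK hXn hk1 hk2 hne hX h
  obtain ⟨e1, e2, e3, e4⟩ := swap hL hp hXd g1 g2 g3
  exact ⟨K2 ++ R, e1, e2, e3, fun d hd h1 h2 => e4 d (hR d hd h1 h2)⟩

end Pool.Agent.H21A
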